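import Pool.Agent.helper306_sumturan.Density

/-!
# Constructions
-/

set_option autoImplicit false

namespace Pool.Agent.helper306_sumturan

open Finset

/-- all sums congruent to `1` modulo the least prime factor of `k + 1` -/
def oneMod (k : ℕ) : Set ℕ := {s | s % (k + 1).minFac = 1}

theorem cliqueFree_oneMod (k : ℕ) (hk : 1 ≤ k) (N : ℕ) :
    CliqueFree (k + 1 + 1) (k + 1) N (oneMod k) := by
  classical
  intro A _ hAc
  by_contra hcon
  push Not at hcon
  set p := (k + 1).minFac with hp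
  have hp2 : 2 ≤ p := (Nat.minFac_prime (by omega)).two_le
  have hNZ : NeZero p := ⟨by omega⟩
  have : Fact (1 < p) := ⟨by omega⟩
  have hpk : p ∣ k + 1 := Nat.minFac_dvd _
  have h1 : ∀ a ∈ A, ((∑ v ∈ A, v : ℕ) : ZMod p) - a = 1 := by
    intro a ha
    have h2 := hcon (A.erase a) (erase_subset _ _) (by rw [card_erase_of_mem ha, hAc]; rfl)
    have h3 : (∑ v ∈ A.erase a, v) % p = 1 := h2
    have h4 : ((∑ v ∈ A.erase a, v : ℕ) : ZMod p) = ((1 : ℕ) : ZMod p) := by
      rw [ZMod.natCast_eq_natCast_iff']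
      rw [h3, Nat.mod_eq_of_lt (by omega : 1 < p)]
    have h5 : ∑ v ∈ A.erase a, v + a = ∑ v ∈ A, v := sum_erase_add _ _ ha
    rw [← h5]
    push_cast at h4 ⊢
    rw [h4]; ring
  set s : ZMod p := ((∑ v ∈ A, v : ℕ) : ZMod p) with hs
  have h2 : s = ∑ a ∈ A, (s - 1) := by
    calc s = ∑ a ∈ A, ((a : ℕ) : ZMod p) := by rw [hs]; push_cast; rfl
      _ = ∑ a ∈ A, (s - 1) := sum_congr rfl fun a ha => by
          have := h1 a ha
          rw [← this]; ring
  rw [sum_const, hAc, nsmul_eq_mul] at h2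
  have h3 : ((k + 1 : ℕ) : ZMod p) = 0 := (ZMod.natCast_eq_zero_iff _ _).2 hpk
  have h4 : ((k + 1 + 1 : ℕ) : ZMod p) = 1 := by
    rw [Nat.cast_add, h3]; simp
  rw [h4] at h2
  have h5 : (1 : ZMod p) = 0 := by
    have : s = 1 * (s - 1) := h2
    have h6 : s = s - 1 := by rw [one_mul] at this; exact this
    have h7 : s - s = s - 1 - s := by rw [← h6]
    rw [sub_self] at h7
    have h8 : (0 : ZMod p) = -1 := by rw [h7]; ring
    rw [eq_comm, neg_eq_zero] at h8
    exact h8
  exact one_ne_zero h5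

open scoped Classical in
theorem count_oneMod (k : ℕ) (hk : 1 ≤ k) (N τ : ℕ) :
    (1 / ((k + 1).minFac : ℝ)) * N - 1
      ≤ (((Icc 1 N).filter (fun v => τ + v ∈ oneMod k)).card : ℝ) := by
  set p := (k + 1).minFac with hp
  have hp2 : 2 ≤ p := (Nat.minFac_prime (by omega)).two_le
  set v₀ := p - (τ + p - 1) % p with hv₀
  have hlt : (τ + p - 1) % p < p := Nat.mod_lt _ (by omega)
  have hdm := Nat.div_add_mod (τ + p - 1) p
  have h1 : (N / p) ≤ ((Icc 1 N).filter (fun v => τ + v ∈ oneMod k)).card := by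
    refine le_trans (card_range (N / p)).ge ?_
    refine card_le_card_of_injOn (fun i => v₀ + p * i) ?_ ?_
    · intro i hi
      rw [mem_coe, mem_range] at hi
      rw [mem_coe, mem_filter, mem_Icc]
      have h2 : p * (i + 1) ≤ N := by
        calc p * (i + 1) ≤ p * (N / p) := Nat.mul_le_mul_left _ hi
          _ ≤ N := Nat.mul_div_le N p
      have h3 : p * (i + 1) = p * i + p := by ring
      refine ⟨⟨?_, ?_⟩, ?_⟩
      · show 1 ≤ v₀ + p * i
        omega
      · show v₀ + p * i ≤ N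
        omega
      · show (τ + (v₀ + p * i)) % p = 1
        have h4 : τ + (v₀ + p * i) = 1 + p * ((τ + p - 1) / p + i) := by
          rw [Nat.mul_add]
          omega
        rw [h4, Nat.add_mul_mod_self_left, Nat.mod_eq_of_lt (by omega)]
    · intro a _ b _ hab
      have : v₀ + p * a = v₀ + p * b := hab
      have h2 : p * a = p * b := by omega
      exact Nat.eq_of_mul_eq_mul_left (by omega) h2
  have h2 : ((N / p : ℕ) : ℝ) ≤ (((Icc 1 N).filter (fun v => τ + v ∈ oneMod k)).card : ℝ) := by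
    exact_mod_cast h1
  have h3 : (1 / (p : ℝ)) * N - 1 ≤ ((N / p : ℕ) : ℝ) := by
    have h4 : (N : ℝ) / p < (N / p : ℕ) + 1 := by
      have h5 : N < p * (N / p + 1) := by
        have := Nat.lt_mul_div_succ N (show 0 < p by omega)
        exact this
      rw [div_lt_iff₀ (by exact_mod_cast (by omega : 0 < p))]
      have h6 : (N : ℝ) < p * ((N / p : ℕ) + 1) := by exact_mod_cast h5
      linarith
    have h5 : (1 / (p : ℝ)) * N = N / p := by ring
    rw [h5]
    linarith
  linarith

/-- the sums that are not divisible by `r` -/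
def notDvd (r : ℕ) : Set ℕ := {s | ¬ r ∣ s}

theorem cliqueFree_notDvd (r t : ℕ) (ht : 2 * r - 1 ≤ t) (N : ℕ) :
    CliqueFree t r N (notDvd r) := by
  intro A _ hAc
  obtain ⟨e, he, hec, hed⟩ := Int.erdos_ginzburg_ziv (n := r) (s := A) (fun v : ℕ => (v : ℤ))
    (by rw [hAc]; exact ht)
  refine ⟨e, he, hec, ?_⟩
  rw [notDvd, Set.mem_ofPred_eq, not_not]
  have : (r : ℤ) ∣ ((∑ v ∈ e, v : ℕ) : ℤ) := by push_cast; exact hed
  exact_mod_cast this

open scoped Classical in
theorem count_notDvd (r : ℕ) (hr : 1 ≤ r) (N τ : ℕ) :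
    (1 - 1 / (r : ℝ)) * N - 2 ≤ (((Icc 1 N).filter (fun v => τ + v ∈ notDvd r)).card : ℝ) := by
  have hrR : (0 : ℝ) < r := by exact_mod_cast hr
  have h1 : ((Icc 1 N).filter (fun v => ¬ (τ + v ∈ notDvd r))).card ≤ N / r + 2 := by
    have h2 : ((Icc 1 N).filter (fun v => ¬ (τ + v ∈ notDvd r))).card
        ≤ (Icc (τ / r) ((τ + N) / r)).card := by
      refine card_le_card_of_injOn (fun v => (τ + v) / r) ?_ ?_
      · intro v hv
        rw [mem_coe, mem_filter, mem_Icc] at hv
        rw [mem_coe, mem_Icc]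
        exact ⟨Nat.div_le_div_right (by omega), Nat.div_le_div_right (by omega)⟩
      · intro v hv w hw hvw
        rw [mem_coe, mem_filter, notDvd, Set.mem_ofPred_eq, not_not] at hv hw
        have h3 : (τ + v) / r = (τ + w) / r := hvw
        have h4 := Nat.div_mul_cancel hv.2
        have h5 := Nat.div_mul_cancel hw.2
        rw [h3] at h4
        omega
    refine h2.trans ?_
    rw [Nat.card_Icc]
    have h3 : (τ + N) / r ≤ τ / r + N / r + 1 := by
      rw [Nat.add_div hr]
      split_ifs <;> simp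
    generalize (τ + N) / r = x at h3 ⊢
    generalize τ / r = y at h3 ⊢
    generalize N / r = z at h3 ⊢
    omega
  have h2 := card_filter_add_card_filter_not (s := Icc 1 N) (fun v => τ + v ∈ notDvd r)
  rw [Nat.card_Icc] at h2
  have h3 : ((N / r : ℕ) : ℝ) ≤ N / r := Nat.cast_div_le
  have h4 : (N : ℝ) ≤ ((Icc 1 N).filter (fun v => τ + v ∈ notDvd r)).card + ((N / r : ℕ) + 2) := by
    have : N ≤ ((Icc 1 N).filter (fun v => τ + v ∈ notDvd r)).card + (N / r + 2) := by omega
    exact_mod_cast this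
  have h5 : (1 - 1 / (r : ℝ)) * N = N - N / r := by ring
  rw [h5]
  linarith

end Pool.Agent.helper306_sumturan
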