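import Mathlib

/-!
# Hypergraphs on `{1, …, N}` whose edges are determined by the sum: counting
-/

set_option autoImplicit false

namespace Pool.Agent.helper306_sumturan

open Finset
open scoped Classical in
/-- the `r`-subsets of `{1, …, N}` whose sum lies in `S` -/
noncomputable def edges (r N : ℕ) (S : Set ℕ) : Finset (Finset ℕ) :=
  ((Icc 1 N).powersetCard r).filter (fun e => ∑ v ∈ e, v ∈ S)

/-- no `t` elements of `{1, …, N}` have all sums of `r` of them in `S` -/
def CliqueFree (t r N : ℕ) (S : Set ℕ) : Prop :=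
  ∀ A ⊆ Icc 1 N, A.card = t → ∃ e ⊆ A, e.card = r ∧ ∑ v ∈ e, v ∉ S

open scoped Classical in
/-- the extensions of the set `T` to an edge -/
noncomputable def ext (N : ℕ) (S : Set ℕ) (T : Finset ℕ) : Finset ℕ :=
  (Icc 1 N \ T).filter (fun v => ∑ u ∈ T, u + v ∈ S)

theorem card_edges_mul (k N : ℕ) (S : Set ℕ) :
    (edges (k + 1) N S).card * (k + 1)
      = ∑ T ∈ (Icc 1 N).powersetCard k, (ext N S T).card := by
  classical
  have h1 : (edges (k + 1) N S).card * (k + 1)
      = ((edges (k + 1) N S).sigma (fun e => e)).card := by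
    rw [card_sigma, sum_const_nat (m := k + 1)]
    intro e he
    rw [edges, mem_filter, mem_powersetCard] at he
    exact he.1.2
  rw [h1, ← card_sigma]
  refine card_bij' (fun p _ => ⟨p.1.erase p.2, p.2⟩) (fun q _ => ⟨insert q.2 q.1, q.2⟩) ?_ ?_ ?_ ?_
  · rintro ⟨e, v⟩ hp
    rw [mem_sigma, edges, mem_filter, mem_powersetCard] at hp
    obtain ⟨⟨⟨h2, h3⟩, h4⟩, h5⟩ := hp
    rw [mem_sigma, mem_powersetCard]
    refine ⟨⟨(erase_subset _ _).trans h2, ?_⟩, ?_⟩
    · rw [card_erase_of_mem h5, h3]; rfl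
    · rw [ext, mem_filter, mem_sdiff]
      refine ⟨⟨h2 h5, notMem_erase _ _⟩, ?_⟩
      rw [sum_erase_add _ _ h5]
      exact h4
  · rintro ⟨T, v⟩ hq
    rw [mem_sigma, mem_powersetCard, ext, mem_filter, mem_sdiff] at hq
    obtain ⟨⟨h2, h3⟩, ⟨h4, h5⟩, h6⟩ := hq
    rw [mem_sigma, edges, mem_filter, mem_powersetCard]
    refine ⟨⟨⟨insert_subset h4 h2, ?_⟩, ?_⟩, mem_insert_self _ _⟩
    · rw [card_insert_of_notMem h5, h3]
    · rw [sum_insert h5, add_comm]
      exact h6
  · rintro ⟨e, v⟩ hp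
    rw [mem_sigma] at hp
    simp only
    rw [insert_erase hp.2]
  · rintro ⟨T, v⟩ hq
    rw [mem_sigma, ext, mem_filter, mem_sdiff] at hq
    simp only
    rw [erase_insert hq.2.1.2]

open scoped Classical in
/-- the elements of `S` in `[a, a + n)` -/
noncomputable def inWindow (S : Set ℕ) (a n : ℕ) : Finset ℕ := (Ico a (a + n)).filter (· ∈ S)

theorem card_inWindow_le (S : Set ℕ) (a n : ℕ) : (inWindow S a n).card ≤ n := by
  classical
  refine (card_filter_le _ _).trans ?_
  rw [Nat.card_Ico]; omega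

theorem inWindow_split (S : Set ℕ) (a n m : ℕ) :
    (inWindow S a (n + m)).card ≤ (inWindow S a n).card + (inWindow S (a + n) m).card := by
  classical
  refine le_trans (card_le_card ?_) (card_union_le _ _)
  intro v hv
  rw [inWindow, mem_filter, mem_Ico] at hv
  rw [mem_union, inWindow, inWindow, mem_filter, mem_filter, mem_Ico, mem_Ico]
  by_cases h : v < a + n
  · left; exact ⟨⟨hv.1.1, h⟩, hv.2⟩
  · right; exact ⟨⟨by omega, by omega⟩, hv.2⟩

/-- covering by windows of length `ℓ` -/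
theorem card_cover (S : Set ℕ) (ℓ : ℕ) (hℓ : 1 ≤ ℓ) (c : ℝ) (hc : 0 ≤ c) (n : ℕ) : ∀ a : ℕ,
    (∀ j, a ≤ j → j + ℓ ≤ a + n → ((inWindow S j ℓ).card : ℝ) ≤ c) →
    ((inWindow S a n).card : ℝ) ≤ (n : ℝ) / ℓ * c + ℓ := by
  have hℓR : (0 : ℝ) < ℓ := by exact_mod_cast hℓ
  induction n using Nat.strong_induction_on with
  | _ n ih =>
    intro a h
    by_cases hn : n < ℓ
    · have h1 : ((inWindow S a n).card : ℝ) ≤ n := by exact_mod_cast card_inWindow_le S a n
      have h2 : (n : ℝ) ≤ ℓ := by exact_mod_cast hn.le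
      have h3 : 0 ≤ (n : ℝ) / ℓ * c := by positivity
      linarith
    · push Not at hn
      have e : n = ℓ + (n - ℓ) := by omega
      have h1 : ((inWindow S a n).card : ℝ)
          ≤ (inWindow S a ℓ).card + (inWindow S (a + ℓ) (n - ℓ)).card := by
        have := inWindow_split S a ℓ (n - ℓ)
        rw [← e] at this
        exact_mod_cast this
      have h2 := h a le_rfl (by omega)
      have h3 := ih (n - ℓ) (by omega) (a + ℓ) (fun j hj hj' => h j (by omega) (by omega))
      have h4 : ((n - ℓ : ℕ) : ℝ) = n - ℓ := by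
        rw [Nat.cast_sub hn]
      rw [h4] at h3
      have h5 : ((n : ℝ) - ℓ) / ℓ * c = (n : ℝ) / ℓ * c - c := by
        field_simp
      linarith

/-- the number of extensions of a set with `k` elements, if `S` has at most `c` elements in all
windows of length `ℓ` that are not close to the smallest or largest sum -/
theorem card_ext_le (k N : ℕ) (S : Set ℕ) (ℓ : ℕ) (hℓ : 1 ≤ ℓ) (c : ℝ) (hc : 0 ≤ c)
    (hwin : ∀ j, (k + 1) * (1 + ℓ) ≤ j → j + ℓ + (k + 1) * ℓ ≤ (k + 1) * N + 1 →
      ((inWindow S j ℓ).card : ℝ) ≤ c) (T : Finset ℕ) (hT : T ∈ (Icc 1 N).powersetCard k) :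
    ((ext N S T).card : ℝ) ≤ (N : ℝ) / ℓ * c + (2 * k + 4) * (ℓ + 1) := by
  classical
  have hℓR : (0 : ℝ) < ℓ := by exact_mod_cast hℓ
  rw [mem_powersetCard] at hT
  set τ := ∑ u ∈ T, u with hτ
  have hτN : τ ≤ k * N := by
    calc τ ≤ ∑ _u ∈ T, N := sum_le_sum fun u hu => (mem_Icc.1 (hT.1 hu)).2
      _ = k * N := by rw [sum_const, hT.2, smul_eq_mul]
  set lo := max (τ + 1) ((k + 1) * (1 + ℓ)) with hlo
  set hi := min (τ + N + 1) ((k + 1) * N + 1 - (k + 1) * ℓ) with hhi
  have h1 : (ext N S T).card ≤ (k + 1) * (1 + ℓ) + (k + 1) * ℓ + (inWindow S lo (hi - lo)).card := by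
    have hsub : ext N S T ⊆ (Icc 1 ((k + 1) * (1 + ℓ)) ∪ Ioc (N - (k + 1) * ℓ) N)
        ∪ (inWindow S lo (hi - lo)).image (fun s => s - τ) := by
      intro v hv
      rw [ext, mem_filter, mem_sdiff, mem_Icc, ← hτ] at hv
      obtain ⟨⟨⟨hv1, hv2⟩, -⟩, hv3⟩ := hv
      rw [mem_union, mem_union, mem_Icc, mem_Ioc, mem_image]
      by_cases ha : τ + v < (k + 1) * (1 + ℓ)
      · left; left
        exact ⟨hv1, by omega⟩
      by_cases hb : (k + 1) * N < τ + v + (k + 1) * ℓ
      · left; right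
        refine ⟨?_, hv2⟩
        have : (k + 1) * N = k * N + N := by ring
        omega
      · right
        push Not at ha hb
        refine ⟨τ + v, ?_, by omega⟩
        rw [inWindow, mem_filter, mem_Ico]
        have h5 : lo ≤ τ + v := by
          rw [hlo]; exact max_le (by omega) ha
        have h6 : τ + v < hi := by
          rw [hhi]; apply lt_min
          · omega
          · omega
        exact ⟨⟨h5, by omega⟩, hv3⟩
    refine (card_le_card hsub).trans ?_
    refine (card_union_le _ _).trans ?_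
    refine Nat.add_le_add ((card_union_le _ _).trans ?_) card_image_le
    rw [Nat.card_Icc, Nat.card_Ioc]
    omega
  have h2 : ((inWindow S lo (hi - lo)).card : ℝ) ≤ (N : ℝ) / ℓ * c + ℓ := by
    have h3 := card_cover S ℓ hℓ c hc (hi - lo) lo (fun j hj hj' => by
      by_cases hlh : hi ≤ lo
      · omega
      · push Not at hlh
        have h4 : j + ℓ ≤ hi := by omega
        refine hwin j ?_ ?_
        · exact (le_max_right _ _).trans hj
        · have h5 : hi ≤ (k + 1) * N + 1 - (k + 1) * ℓ := min_le_right _ _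
          omega)
    have h4 : ((hi - lo : ℕ) : ℝ) ≤ N := by
      have h5 : hi - lo ≤ N := by
        have h6 : hi ≤ τ + N + 1 := min_le_left _ _
        have h7 : τ + 1 ≤ lo := le_max_left _ _
        omega
      exact_mod_cast h5
    have h5 : ((hi - lo : ℕ) : ℝ) / ℓ * c ≤ (N : ℝ) / ℓ * c := by
      apply mul_le_mul_of_nonneg_right _ hc
      exact div_le_div_of_nonneg_right h4 hℓR.le
    linarith
  have h1' : ((ext N S T).card : ℝ)
      ≤ (k + 1) * (1 + ℓ) + (k + 1) * ℓ + (inWindow S lo (hi - lo)).card := by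
    exact_mod_cast h1
  nlinarith

end Pool.Agent.helper306_sumturan
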