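import Pool.Agent.helper306_sumturan.Count

/-!
# Densities of hypergraphs determined by the sum
-/

set_option autoImplicit false

namespace Pool.Agent.helper306_sumturan

open Finset

theorem choose_mul (N k : ℕ) (hkN : k ≤ N) :
    ((N.choose (k + 1) : ℕ) : ℝ) * (k + 1) = N.choose k * ((N : ℝ) - k) := by
  have h := Nat.choose_succ_right_eq N k
  have h' : ((N.choose (k + 1) * (k + 1) : ℕ) : ℝ) = ((N.choose k * (N - k) : ℕ) : ℝ) := by
    rw [h]
  push_cast [Nat.cast_sub hkN] at h'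
  exact h'

/-- upper bound for the density from the windows -/
theorem density_le (k ℓ : ℕ) (hℓ : 1 ≤ ℓ) (γ : ℝ) (hγ : 0 ≤ γ) (ε : ℝ) (hε : 0 < ε) :
    ∃ N₀ : ℕ, ∀ N : ℕ, N₀ ≤ N → ∀ S : Set ℕ,
      (∀ j, (k + 1) * (1 + ℓ) ≤ j → j + ℓ + (k + 1) * ℓ ≤ (k + 1) * N + 1 →
        ((inWindow S j ℓ).card : ℝ) ≤ γ * ℓ) →
      ((edges (k + 1) N S).card : ℝ) ≤ (γ + ε) * N.choose (k + 1) := by
  obtain ⟨N₀, hN₀⟩ := exists_nat_ge (((2 * k + 4) * ((ℓ : ℝ) + 1) + (γ + ε) * k) / ε)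
  refine ⟨max N₀ k, fun N hN S hwin => ?_⟩
  have hkN : k ≤ N := (le_max_right _ _).trans hN
  have hN1 : (N₀ : ℝ) ≤ N := by exact_mod_cast (le_max_left _ _).trans hN
  have hℓR : (0 : ℝ) < ℓ := by exact_mod_cast hℓ
  have h1 : ((edges (k + 1) N S).card : ℝ) * (k + 1)
      ≤ N.choose k * ((N : ℝ) * γ + (2 * k + 4) * (ℓ + 1)) := by
    have e : ((edges (k + 1) N S).card : ℝ) * (k + 1)
        = ∑ T ∈ (Icc 1 N).powersetCard k, ((ext N S T).card : ℝ) := by
      have := card_edges_mul k N S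
      exact_mod_cast this
    rw [e]
    calc ∑ T ∈ (Icc 1 N).powersetCard k, ((ext N S T).card : ℝ)
        ≤ ∑ _T ∈ (Icc 1 N).powersetCard k, ((N : ℝ) * γ + (2 * k + 4) * (ℓ + 1)) := by
          refine sum_le_sum fun T hT => ?_
          have := card_ext_le k N S ℓ hℓ (γ * ℓ) (by positivity) hwin T hT
          have e2 : (N : ℝ) / ℓ * (γ * ℓ) = N * γ := by field_simp
          rw [e2] at this
          exact this
      _ = N.choose k * ((N : ℝ) * γ + (2 * k + 4) * (ℓ + 1)) := by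
          rw [sum_const, card_powersetCard, Nat.card_Icc, nsmul_eq_mul]
          simp
  have h2 : (N : ℝ) * γ + (2 * k + 4) * (ℓ + 1) ≤ (γ + ε) * (N - k) := by
    have h3 : ((2 * k + 4) * ((ℓ : ℝ) + 1) + (γ + ε) * k) / ε ≤ N := hN₀.trans hN1
    rw [div_le_iff₀ hε] at h3
    nlinarith
  have h3 : ((edges (k + 1) N S).card : ℝ) * (k + 1)
      ≤ ((γ + ε) * N.choose (k + 1)) * (k + 1) := by
    calc ((edges (k + 1) N S).card : ℝ) * (k + 1)
        ≤ N.choose k * ((N : ℝ) * γ + (2 * k + 4) * (ℓ + 1)) := h1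
      _ ≤ N.choose k * ((γ + ε) * (N - k)) := by gcongr
      _ = (γ + ε) * (N.choose k * ((N : ℝ) - k)) := by ring
      _ = ((γ + ε) * N.choose (k + 1)) * (k + 1) := by rw [← choose_mul N k hkN]; ring
  exact le_of_mul_le_mul_right h3 (by positivity)

open scoped Classical in
/-- lower bound for the density -/
theorem le_density (k : ℕ) (S : Set ℕ) (β : ℝ) (hβ : 0 ≤ β) (D : ℝ)
    (hS : ∀ N τ : ℕ, β * N - D ≤ (((Icc 1 N).filter (fun v => τ + v ∈ S)).card : ℝ))
    (ε : ℝ) (hε : 0 < ε) :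
    ∃ N₀ : ℕ, ∀ N : ℕ, N₀ ≤ N →
      (β - ε) * N.choose (k + 1) ≤ ((edges (k + 1) N S).card : ℝ) := by
  obtain ⟨N₀, hN₀⟩ := exists_nat_ge ((D + k + ε * k) / ε)
  refine ⟨max N₀ k, fun N hN => ?_⟩
  have hkN : k ≤ N := (le_max_right _ _).trans hN
  have hkNR : (k : ℝ) ≤ N := by exact_mod_cast hkN
  have hN1 : (N₀ : ℝ) ≤ N := by exact_mod_cast (le_max_left _ _).trans hN
  have hext : ∀ T ∈ (Icc 1 N).powersetCard k, β * N - D - k ≤ ((ext N S T).card : ℝ) := by
    intro T hT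
    rw [mem_powersetCard] at hT
    have h1 : ((Icc 1 N).filter (fun v => (∑ u ∈ T, u) + v ∈ S)) ⊆ ext N S T ∪ T := by
      intro v hv
      rw [mem_filter] at hv
      rw [mem_union]
      by_cases hvT : v ∈ T
      · right; exact hvT
      · left
        rw [ext, mem_filter, mem_sdiff]
        exact ⟨⟨hv.1, hvT⟩, hv.2⟩
    have h2 := (card_le_card h1).trans (card_union_le _ _)
    rw [hT.2] at h2
    have h3 := hS N (∑ u ∈ T, u)
    have h4 : ((((Icc 1 N).filter (fun v => (∑ u ∈ T, u) + v ∈ S)).card : ℕ) : ℝ)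
        ≤ (ext N S T).card + k := by exact_mod_cast h2
    linarith
  have h1 : N.choose k * (β * N - D - k) ≤ ((edges (k + 1) N S).card : ℝ) * (k + 1) := by
    have e : ((edges (k + 1) N S).card : ℝ) * (k + 1)
        = ∑ T ∈ (Icc 1 N).powersetCard k, ((ext N S T).card : ℝ) := by
      have := card_edges_mul k N S
      exact_mod_cast this
    rw [e]
    calc N.choose k * (β * N - D - k)
        = ∑ _T ∈ (Icc 1 N).powersetCard k, (β * N - D - k) := by
          rw [sum_const, card_powersetCard, Nat.card_Icc, nsmul_eq_mul]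
          simp
      _ ≤ ∑ T ∈ (Icc 1 N).powersetCard k, ((ext N S T).card : ℝ) :=
          sum_le_sum fun T hT => hext T hT
  have h2 : (β - ε) * (N - k) ≤ β * N - D - k := by
    have h4 : (D + k + ε * k) / ε ≤ N := hN₀.trans hN1
    rw [div_le_iff₀ hε] at h4
    have h5 : 0 ≤ β * (k : ℝ) := by positivity
    nlinarith
  have h3 : ((β - ε) * N.choose (k + 1)) * (k + 1) ≤ ((edges (k + 1) N S).card : ℝ) * (k + 1) := by
    calc ((β - ε) * N.choose (k + 1)) * (k + 1)
        = (β - ε) * (N.choose k * ((N : ℝ) - k)) := by rw [← choose_mul N k hkN]; ring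
      _ = N.choose k * ((β - ε) * (N - k)) := by ring
      _ ≤ N.choose k * (β * N - D - k) := by gcongr
      _ ≤ _ := h1
  exact le_of_mul_le_mul_right h3 (by positivity)

end Pool.Agent.helper306_sumturan
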