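import Mathlib

/-!
# Sums of `r + 1` elements of a subset of `ZMod r` with more than `r / p` elements
-/

set_option autoImplicit false

namespace Pool.Agent.helper306_sumturan

open Finset
open scoped Pointwise

/-- the sums of `k` elements of `R` -/
def ksum {G : Type*} [AddCommGroup G] [DecidableEq G] [Fintype G] (R : Finset G) (k : ℕ) :
    Finset G := univ.filter (fun g => ∃ f : Fin k → G, (∀ i, f i ∈ R) ∧ ∑ i, f i = g)

section
variable {G : Type*} [AddCommGroup G] [DecidableEq G] [Fintype G]

theorem mem_ksum {R : Finset G} {k : ℕ} {g : G} :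
    g ∈ ksum R k ↔ ∃ f : Fin k → G, (∀ i, f i ∈ R) ∧ ∑ i, f i = g := by
  rw [ksum, mem_filter]; exact ⟨fun h => h.2, fun h => ⟨mem_univ _, h⟩⟩

theorem add_mem_ksum {R : Finset G} {k : ℕ} {g h : G} (hg : g ∈ ksum R k) (hh : h ∈ R) :
    g + h ∈ ksum R (k + 1) := by
  rw [mem_ksum] at hg ⊢
  obtain ⟨f, hf, rfl⟩ := hg
  refine ⟨Fin.cons h f, ?_, ?_⟩
  · intro i
    refine Fin.cases ?_ (fun j => ?_) i
    · simpa using hh
    · simpa using hf j
  · rw [Fin.sum_univ_succ, Fin.cons_zero, add_comm]
    simp only [Fin.cons_succ]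

/-- If every proper subgroup has less elements than `R ∋ 0`, the sets `k R` increase to `G`. -/
theorem ksum_card {R : Finset G} (h0 : (0 : G) ∈ R)
    (hsub : ∀ K : AddSubgroup G, R.card ≤ Nat.card K → K = ⊤) (k : ℕ) :
    min (Fintype.card G) (k + 1) ≤ (ksum R k).card := by
  induction k with
  | zero =>
    have : (0 : G) ∈ ksum R 0 := by
      rw [mem_ksum]
      exact ⟨Fin.elim0, fun i => i.elim0, by simp⟩
    have h1 : 0 < (ksum R 0).card := card_pos.2 ⟨0, this⟩
    exact (min_le_right _ _).trans h1
  | succ k ih =>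
    have hmono : ksum R k ⊆ ksum R (k + 1) := by
      intro g hg
      have := add_mem_ksum hg h0
      rwa [add_zero] at this
    by_cases heq : (ksum R (k + 1)).card ≤ (ksum R k).card
    · have heq' : ksum R k = ksum R (k + 1) := eq_of_subset_of_card_le hmono heq
      -- the stabilizer contains `R`
      have hR : ∀ h ∈ R, h ∈ AddAction.stabilizer G (ksum R k) := by
        intro h hh
        rw [AddAction.mem_stabilizer_iff]
        apply eq_of_subset_of_card_le
        · intro x hx
          rw [mem_vadd_finset] at hx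
          obtain ⟨y, hy, rfl⟩ := hx
          have h4 := add_mem_ksum hy hh
          rw [← heq', add_comm] at h4
          exact h4
        · rw [card_vadd_finset]
      have h1 : AddAction.stabilizer G (ksum R k) = ⊤ := by
        apply hsub
        have h2 : R.card = Nat.card (R : Set G) := by simp
        rw [h2]
        exact Nat.card_mono (Set.toFinite _) (fun x hx => hR x hx)
      have h2 : ksum R k = univ := by
        rw [eq_univ_iff_forall]
        intro g
        have hz : (0 : G) ∈ ksum R k := by
          rw [mem_ksum]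
          exact ⟨fun _ => 0, fun _ => h0, by simp⟩
        have hg : g ∈ AddAction.stabilizer G (ksum R k) := by rw [h1]; exact AddSubgroup.mem_top g
        rw [AddAction.mem_stabilizer_iff] at hg
        rw [← hg, mem_vadd_finset]
        exact ⟨0, hz, by simp⟩
      rw [← heq', h2, card_univ]
      exact min_le_left _ _
    · push Not at heq
      have h3 : min (Fintype.card G) (k + 1 + 1) ≤ min (Fintype.card G) (k + 1) + 1 := by omega
      omega

end

/-- `r + 1` elements of a set with more than `r / p` elements can have any sum in `ZMod r`. -/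
theorem exists_sum (r : ℕ) (hr : 2 ≤ r) (R : Finset (ZMod r)) (hR : r < R.card * r.minFac)
    (g : ZMod r) : ∃ f : Fin (r + 1) → ZMod r, (∀ i, f i ∈ R) ∧ ∑ i, f i = g := by
  have : NeZero r := ⟨by omega⟩
  have hRne : R.Nonempty := by
    rw [nonempty_iff_ne_empty]
    rintro rfl
    simp at hR
  obtain ⟨a, ha⟩ := hRne
  set R₀ := R.image (fun x => x - a) with hR₀
  have hc : R₀.card = R.card := card_image_of_injective _ (sub_left_injective)
  have h0 : (0 : ZMod r) ∈ R₀ := by
    rw [hR₀, mem_image]
    exact ⟨a, ha, sub_self a⟩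
  have hsub : ∀ K : AddSubgroup (ZMod r), R₀.card ≤ Nat.card K → K = ⊤ := by
    intro K hK
    have hdvd : Nat.card K ∣ Nat.card (ZMod r) := AddSubgroup.card_addSubgroup_dvd_card K
    rw [Nat.card_zmod] at hdvd
    obtain ⟨d, hd⟩ := hdvd
    apply AddSubgroup.eq_top_of_card_eq
    rw [Nat.card_zmod]
    by_contra hne
    have hd1 : d ≠ 1 := by
      rintro rfl
      rw [mul_one] at hd
      exact hne hd.symm
    have hdd : d ∣ r := Dvd.intro_left _ hd.symm
    have hd0 : d ≠ 0 := by
      rintro rfl
      omega
    have hmin : r.minFac ≤ d := Nat.minFac_le_of_dvd (by omega) hdd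
    have h1 : R.card * r.minFac ≤ Nat.card K * d :=
      Nat.mul_le_mul (by rw [← hc]; exact hK) hmin
    omega
  have hcard := ksum_card h0 hsub (r + 1)
  rw [ZMod.card] at hcard
  have huniv : ksum R₀ (r + 1) = univ := by
    apply eq_univ_of_card
    rw [ZMod.card]
    have h1 : (ksum R₀ (r + 1)).card ≤ r := by
      have := card_le_univ (ksum R₀ (r + 1))
      rwa [ZMod.card] at this
    have h2 : min r (r + 1 + 1) = r := min_eq_left (by omega)
    omega
  have hmem : g - (r + 1 : ℕ) • a ∈ ksum R₀ (r + 1) := by rw [huniv]; exact mem_univ _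
  rw [mem_ksum] at hmem
  obtain ⟨f, hf, hfs⟩ := hmem
  refine ⟨fun i => f i + a, ?_, ?_⟩
  · intro i
    have := hf i
    rw [hR₀, mem_image] at this
    obtain ⟨x, hx, hxa⟩ := this
    have e : f i + a = x := by rw [← hxa]; abel
    show f i + a ∈ R
    rw [e]; exact hx
  · rw [sum_add_distrib, hfs, sum_const, card_univ, Fintype.card_fin]
    abel

end Pool.Agent.helper306_sumturan
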