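import Pool.Agent.helper306_sumturan.Density
import Pool.Agent.helper306_sumturan.Group

/-!
# Cliques with `r + 1` vertices
-/

set_option autoImplicit false

namespace Pool.Agent.helper306_sumturan

open Finset

theorem card_class_le (r m j : ℕ) (hr : 1 ≤ r) (S : Set ℕ) (c : ZMod r) :
    ((inWindow S j (r * m)).filter (fun v : ℕ => (v : ZMod r) = c)).card ≤ m := by
  classical
  refine le_trans (card_le_card_of_injOn (t := range m) (fun v => (v - j) / r) ?_ ?_)
    (card_range m).le
  · intro v hv
    rw [mem_coe, mem_filter, inWindow, mem_filter, mem_Ico] at hv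
    rw [mem_coe, mem_range]
    apply Nat.div_lt_of_lt_mul
    omega
  · intro v hv w hw hvw
    rw [mem_coe, mem_filter, inWindow, mem_filter, mem_Ico] at hv hw
    have h1 : (v - j) / r = (w - j) / r := hvw
    have h2 : ((v : ℕ) : ZMod r) = (w : ZMod r) := by rw [hv.2, hw.2]
    rw [ZMod.natCast_eq_natCast_iff] at h2
    have h3 : (v - j) ≡ (w - j) [MOD r] := by
      have h4 : (v - j) + j ≡ (w - j) + j [MOD r] := by
        rw [Nat.sub_add_cancel hv.1.1.1, Nat.sub_add_cancel hw.1.1.1]
        exact h2
      exact Nat.ModEq.add_right_cancel' j h4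
    have h5 : (v - j) % r = (w - j) % r := h3
    have h6 := Nat.div_add_mod (v - j) r
    have h7 := Nat.div_add_mod (w - j) r
    rw [h1, h5] at h6
    omega

/-- The windows if there are no `r + 1` points with all sums of `r` of them in `S`. -/
theorem window_small (k m N j : ℕ) (hk : 1 ≤ k) (S : Set ℕ)
    (hS : CliqueFree (k + 1 + 1) (k + 1) N S)
    (hj : (k + 1) * (1 + (k + 1) * m) ≤ j)
    (hj' : j + (k + 1) * m + (k + 1) * ((k + 1) * m) ≤ (k + 1) * N + 1) :
    (inWindow S j ((k + 1) * m)).card ≤ (k + 1) / (k + 1).minFac * m + (k + 1) * (k + 1) := by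
  classical
  set r := k + 1 with hr
  set ℓ := r * m with hℓ
  have hNZ : NeZero r := ⟨by omega⟩
  set cls : ZMod r → Finset ℕ := fun c => (inWindow S j ℓ).filter (fun v : ℕ => (v : ZMod r) = c)
    with hcls
  set R : Finset (ZMod r) := univ.filter (fun c => r + 1 ≤ (cls c).card) with hR
  by_cases hcase : R.card * r.minFac ≤ r
  · -- few classes
    have h1 : (inWindow S j ℓ).card = ∑ c : ZMod r, (cls c).card :=
      card_eq_sum_card_fiberwise (fun _ _ => mem_coe.2 (mem_univ _))
    rw [h1]
    have h2 : ∑ c : ZMod r, (cls c).card ≤ ∑ c : ZMod r, ((if c ∈ R then m else 0) + r) := by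
      refine sum_le_sum fun c _ => ?_
      by_cases hc : c ∈ R
      · rw [if_pos hc]
        have := card_class_le r m j (by omega) S c
        exact this.trans (Nat.le_add_right _ _)
      · rw [if_neg hc, zero_add]
        rw [hR, mem_filter] at hc
        push Not at hc
        have := hc (mem_univ _)
        omega
    refine h2.trans ?_
    rw [sum_add_distrib, sum_const, card_univ, ZMod.card, smul_eq_mul, ← sum_filter,
      filter_mem_eq_inter, univ_inter, sum_const, smul_eq_mul]
    have h3 : R.card ≤ r / r.minFac := by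
      rw [Nat.le_div_iff_mul_le (Nat.minFac_pos r)]
      exact hcase
    exact Nat.add_le_add_right (Nat.mul_le_mul_right _ h3) _
  · exfalso
    push Not at hcase
    obtain ⟨f, hf, hfs⟩ := exists_sum r (by omega) R hcase 0
    have hE : ∀ c ∈ R, ∃ E : Fin (r + 1) → ℕ, Function.Injective E ∧ ∀ i, E i ∈ cls c := by
      intro c hc
      rw [hR, mem_filter] at hc
      obtain ⟨u, hu, huc⟩ := exists_subset_card_eq hc.2
      let e := (u.equivFinOfCardEq huc).symm
      exact ⟨fun i => (e i : ℕ), fun a b hab => e.injective (Subtype.ext hab),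
        fun i => hu (e i).2⟩
    choose! E hEinj hEmem using hE
    set t : Fin (r + 1) → ℕ := fun i => E (f i) i with ht
    have ht1 : ∀ i, t i ∈ inWindow S j ℓ := fun i => (mem_filter.1 (hEmem (f i) (hf i) i)).1
    have ht2 : ∀ i, ((t i : ℕ) : ZMod r) = f i := fun i =>
      (mem_filter.1 (hEmem (f i) (hf i) i)).2
    have htS : ∀ i, t i ∈ S := fun i => (mem_filter.1 (ht1 i)).2
    have htlo : ∀ i, j ≤ t i := fun i => (mem_Ico.1 (mem_filter.1 (ht1 i)).1).1
    have hthi : ∀ i, t i + 1 ≤ j + ℓ := fun i => (mem_Ico.1 (mem_filter.1 (ht1 i)).1).2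
    have htinj : Function.Injective t := by
      intro a b hab
      have h1 : f a = f b := by rw [← ht2 a, ← ht2 b, hab]
      have h2 : E (f a) a = E (f b) b := hab
      rw [← h1] at h2
      exact hEinj (f a) (hf a) h2
    have hdvd : r ∣ ∑ i, t i := by
      rw [← ZMod.natCast_eq_zero_iff]
      push_cast
      rw [← hfs]
      exact sum_congr rfl fun i _ => ht2 i
    obtain ⟨s, hs⟩ := hdvd
    have hsumlo : (r + 1) * j ≤ r * s := by
      rw [← hs]
      calc (r + 1) * j = ∑ _i : Fin (r + 1), j := by
            rw [sum_const, card_univ, Fintype.card_fin, smul_eq_mul]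
        _ ≤ ∑ i, t i := sum_le_sum fun i _ => htlo i
    have hsumhi : r * s + (r + 1) ≤ (r + 1) * (j + ℓ) := by
      rw [← hs]
      calc ∑ i, t i + (r + 1) = ∑ i : Fin (r + 1), (t i + 1) := by
            rw [sum_add_distrib, sum_const, card_univ, Fintype.card_fin, smul_eq_mul, mul_one]
        _ ≤ ∑ _i : Fin (r + 1), (j + ℓ) := sum_le_sum fun i _ => hthi i
        _ = (r + 1) * (j + ℓ) := by
            rw [sum_const, card_univ, Fintype.card_fin, smul_eq_mul]
    have hr1 : 1 ≤ r := by omega
    have hlow : ∀ i, t i + 1 ≤ s := by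
      intro i
      by_contra hcon
      push Not at hcon
      have h1 : s ≤ t i := by omega
      have h2 : r * s ≤ r * t i := Nat.mul_le_mul_left _ h1
      have h3 : r * (t i + 1) ≤ r * (j + ℓ) := Nat.mul_le_mul_left _ (hthi i)
      have h4 : r * (1 + ℓ) = r + r * ℓ := by ring
      have h5 : (r + 1) * j = r * j + j := by ring
      have h6 : r * (t i + 1) = r * t i + r := by ring
      have h7 : r * (j + ℓ) = r * j + r * ℓ := by ring
      omega
    have hupp : ∀ i, s ≤ t i + N := by
      intro i
      by_contra hcon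
      push Not at hcon
      have h2 : r * (t i + N + 1) ≤ r * s := Nat.mul_le_mul_left _ hcon
      have h3 : r * j ≤ r * t i := Nat.mul_le_mul_left _ (htlo i)
      have h5 : (r + 1) * (j + ℓ) = r * j + j + r * ℓ + ℓ := by ring
      have h6 : r * (t i + N + 1) = r * t i + r * N + r := by ring
      omega
    set a : Fin (r + 1) → ℕ := fun i => s - t i with ha
    have hat : ∀ i, a i + t i = s := fun i => by
      have := hlow i
      show s - t i + t i = s
      omega
    have hainj : Function.Injective a := by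
      intro x y hxy
      apply htinj
      have h1 := hat x
      have h2 := hat y
      rw [hxy] at h1
      omega
    have hasum : ∑ i, a i = s := by
      have h1 : ∑ i, a i + ∑ i, t i = (r + 1) * s := by
        rw [← sum_add_distrib, sum_congr rfl (fun i _ => hat i), sum_const, card_univ,
          Fintype.card_fin, smul_eq_mul]
      rw [hs] at h1
      have h2 : (r + 1) * s = s + r * s := by ring
      omega
    obtain ⟨e, he, hec, hesum⟩ := hS (univ.image a) (by
      intro v hv
      obtain ⟨i, -, rfl⟩ := mem_image.1 hv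
      rw [mem_Icc]
      have h1 := hlow i
      have h2 := hupp i
      have h3 := hat i
      omega) (by
      rw [card_image_of_injective _ hainj, card_univ, Fintype.card_fin])
    have hdiff : (univ.image a \ e).card = 1 := by
      rw [card_sdiff_of_subset he, card_image_of_injective _ hainj, card_univ, Fintype.card_fin, hec]
      omega
    obtain ⟨x, hx⟩ := card_eq_one.1 hdiff
    have hsum1 : ∑ v ∈ e, v + x = s := by
      have h1 := sum_sdiff (f := fun v : ℕ => v) he
      rw [hx, sum_singleton, sum_image (fun i _ j _ h => hainj h), hasum] at h1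
      omega
    have hxmem : x ∈ univ.image a := by
      have : x ∈ univ.image a \ e := by rw [hx]; exact mem_singleton_self x
      exact (mem_sdiff.1 this).1
    obtain ⟨i, -, hi⟩ := mem_image.1 hxmem
    apply hesum
    have h1 := hat i
    have h2 : ∑ v ∈ e, v = t i := by omega
    rw [h2]
    exact htS i

/-- the upper bound `1 / p` -/
theorem upper_small (k : ℕ) (hk : 1 ≤ k) (ε : ℝ) (hε : 0 < ε) :
    ∃ N₀ : ℕ, ∀ N : ℕ, N₀ ≤ N → ∀ S : Set ℕ, CliqueFree (k + 1 + 1) (k + 1) N S →
      ((edges (k + 1) N S).card : ℝ) ≤ (1 / (k + 1).minFac + ε) * N.choose (k + 1) := by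
  obtain ⟨m, hm⟩ := exists_nat_gt (2 * ((k : ℝ) + 1) / ε)
  have hmpos : (0 : ℝ) < m := lt_of_le_of_lt (by positivity) hm
  have hm1 : 1 ≤ m := by
    have : 0 < m := by exact_mod_cast hmpos
    exact this
  have hp0 : 0 < (k + 1).minFac := Nat.minFac_pos _
  have hpR : (0 : ℝ) < (k + 1).minFac := by exact_mod_cast hp0
  obtain ⟨N₀, hN₀⟩ := density_le k ((k + 1) * m) (by nlinarith) (1 / (k + 1).minFac + ε / 2)
    (by positivity) (ε / 2) (by positivity)
  refine ⟨N₀, fun N hN S hS => ?_⟩
  have h := hN₀ N hN S (fun j hj hj' => by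
    have h1 := window_small k m N j hk S hS hj hj'
    have h2 : ((inWindow S j ((k + 1) * m)).card : ℝ)
        ≤ ((k + 1) / (k + 1).minFac * m + (k + 1) * (k + 1) : ℕ) := by exact_mod_cast h1
    refine h2.trans ?_
    have h3 : (((k + 1) / (k + 1).minFac : ℕ) : ℝ) = ((k : ℝ) + 1) / (k + 1).minFac := by
      rw [Nat.cast_div (Nat.minFac_dvd _) (by exact_mod_cast hp0.ne')]
      push_cast; ring
    push_cast
    rw [h3]
    have h4 : 2 * ((k : ℝ) + 1) ≤ m * ε := by
      rw [div_lt_iff₀ hε] at hm
      exact hm.le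
    have h5 : (1 / ((k + 1).minFac : ℝ) + ε / 2) * (((k : ℝ) + 1) * m)
        = ((k : ℝ) + 1) / (k + 1).minFac * m + (ε / 2) * (((k : ℝ) + 1) * m) := by ring
    rw [h5]
    have h6 : (0 : ℝ) ≤ (k : ℝ) + 1 := by positivity
    nlinarith)
  refine h.trans ?_
  apply mul_le_mul_of_nonneg_right _ (by positivity)
  linarith

end Pool.Agent.helper306_sumturan
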